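import Pool.Agent.Helper19.DepthTwoMain
import Pool.Agent.Helper23.CD.ThmD

/-!
MP_c5773f_ag, Q1.  `S` is a Noetherian local ring, `I` a proper ideal with `pd_S S/I < ∞`
(automatic for `S` regular), `R = S/I`, `N ≠ 0` is finitely generated with `pd_R N < ∞` and
`pd_R Hom(I/I², N) < ∞`.  Then `I` is generated by a regular sequence in each of the following
cases.

1. depth `R ≤ 1`;
2. depth `R ≤ 2`, and depth `N = 0`, or `N` is killed by an `R`-regular element, or (D) no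
   nonzero element of `I/mI` is killed by all the derivations `E ∈ m Der(S)` with `E(I) ⊆ I`
   (for example `I` quasi-homogeneous in characteristic zero);
3. (D), depth `N ≤ 2` (written depth `R ≤ pd N + 2`), and `N = N₀/(x)N₀` for a finitely generated
   `N₀` with `pd N₀ ≤ 1` and an `N₀`-regular sequence `x`; `R` may have any depth.
-/

universe u

open CategoryTheory IsLocalRing RingTheory.Sequence

namespace Pool.Agent.Results.MP_c5773f_ag.DepthTwoAndLiftable

theorem result (S : Type u) [CommRing S] [IsLocalRing S] [IsNoetherianRing S]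
    (I : Ideal S) (hI : I ≠ ⊤) (hpd : projectiveDimension (ModuleCat.of S (S ⧸ I)) < ⊤)
    (N : Type u) [AddCommGroup N] [Module (S ⧸ I) N] [Module.Finite (S ⧸ I) N] [Nontrivial N]
    (hN : projectiveDimension (ModuleCat.of (S ⧸ I) N) < ⊤)
    (hHom : projectiveDimension (ModuleCat.of (S ⧸ I) (I.Cotangent →ₗ[S ⧸ I] N)) < ⊤)
    (h : (∀ rs : List (S ⧸ I), IsRegular (S ⧸ I) rs → rs.length ≤ 1) ∨
      ((∀ rs : List (S ⧸ I), IsRegular (S ⧸ I) rs → rs.length ≤ 2) ∧
        ((∃ v : N, v ≠ 0 ∧ ∀ r ∈ maximalIdeal S, Ideal.Quotient.mk I r • v = 0) ∨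
        (∃ a : S ⧸ I, IsSMulRegular (S ⧸ I) a ∧ ∀ v : N, a • v = 0) ∨
        (∀ x ∈ I, (∀ E ∈ maximalIdeal S • (⊤ : Submodule S (Derivation ℤ S S)),
          (∀ y ∈ I, E y ∈ I) → E x ∈ maximalIdeal S * I) → x ∈ maximalIdeal S * I))) ∨
      ((∀ x ∈ I, (∀ E ∈ maximalIdeal S • (⊤ : Submodule S (Derivation ℤ S S)),
          (∀ y ∈ I, E y ∈ I) → E x ∈ maximalIdeal S * I) → x ∈ maximalIdeal S * I) ∧
        (∀ rs : List (S ⧸ I), IsRegular (S ⧸ I) rs →
          (rs.length : WithBot ℕ∞) ≤ projectiveDimension (ModuleCat.of (S ⧸ I) N) + 2) ∧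
        ∃ (N₀ : Type u) (_ : AddCommGroup N₀) (_ : Module (S ⧸ I) N₀) (xs : List (S ⧸ I)),
          Module.Finite (S ⧸ I) N₀ ∧
          projectiveDimension (ModuleCat.of (S ⧸ I) N₀) ≤ 1 ∧ IsRegular N₀ xs ∧
          Nonempty ((N₀ ⧸ (Ideal.ofList xs • ⊤ : Submodule (S ⧸ I) N₀)) ≃ₗ[S ⧸ I] N))) :
    ∃ rs : List S, IsRegular S rs ∧ Ideal.ofList rs = I := by
  rcases h with h | ⟨h2, h | h | h⟩ | ⟨hD, hdepth, N₀, _, _, xs, hfin, hpd0, hxs, ⟨e⟩⟩
  · exact Pool.Agent.Helper19.depth_le_two_theorem S I hI hpd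
      (fun rs hrs => (h rs hrs).trans one_le_two) N hN hHom (Or.inl h)
  · exact Pool.Agent.Helper19.depth_le_two_theorem S I hI hpd h2 N hN hHom (Or.inr (Or.inl h))
  · exact Pool.Agent.Helper19.depth_le_two_theorem S I hI hpd h2 N hN hHom
      (Or.inr (Or.inr (Or.inl h)))
  · exact Pool.Agent.Helper19.depth_le_two_theorem S I hI hpd h2 N hN hHom
      (Or.inr (Or.inr (Or.inr h)))
  · exact Pool.Agent.Helper23.CD.theoremD S I hI hpd N₀ hpd0 xs hxs N e hdepth hHom hD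

end Pool.Agent.Results.MP_c5773f_ag.DepthTwoAndLiftable
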