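import Pool.Agent.CN.ExtRed

/-!
# `Hom(I/I², N)` of finite projective dimension: `N` of depth zero or of dimension at most one,
and the reduction to these cases along an `N`-regular sequence when `Ext^i(I/I², N) = 0`

The idea (a detection theorem for maps from the conormal module to complexes of finite free
modules) is due to helper18; the formalisation in `Pool.Agent.CN` is joint work of many seats.
-/

universe u

open CategoryTheory Abelian IsLocalRing RingTheory.Sequence
open scoped Pointwise

namespace Pool.Agent.Results.MP_c5773f_ag.DepthZeroOrDimOne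

/-- Let `S` be a Noetherian local ring and `I ≠ S` an ideal with `pd_S (S/I) < ∞`; put `R = S/I`.
Let `N ≠ 0` be a finitely generated `R`-module with `pd_R N < ∞` and
`pd_R Hom_R(I/I², N) < ∞`.  Let `xs` be an `N`-regular sequence in `R` (possibly empty) with
`Ext^i_R(I/I², N) = 0` for `1 ≤ i ≤ length xs`, such that the maximal ideal kills a nonzero
element of `N/(xs)N` or `dim N/(xs)N ≤ 1`.  Then `I` is generated by an `S`-regular sequence. -/
theorem result (S : Type u) [CommRing S] [IsLocalRing S] [IsNoetherianRing S]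
    (I : Ideal S) (hI : I ≠ ⊤) (hpd : projectiveDimension (ModuleCat.of S (S ⧸ I)) < ⊤)
    (N : Type u) [AddCommGroup N] [Module (S ⧸ I) N] [Module.Finite (S ⧸ I) N] [Nontrivial N]
    (hN : projectiveDimension (ModuleCat.of (S ⧸ I) N) < ⊤)
    (hHom : projectiveDimension (ModuleCat.of (S ⧸ I) (I.Cotangent →ₗ[S ⧸ I] N)) < ⊤)
    (xs : List (S ⧸ I)) (hxs : IsRegular N xs)
    (hExt : ∀ i, 1 ≤ i → i ≤ xs.length →
      Subsingleton (Ext (ModuleCat.of (S ⧸ I) I.Cotangent) (ModuleCat.of (S ⧸ I) N) i))
    (h : (∃ v : N ⧸ (Ideal.ofList xs • ⊤ : Submodule (S ⧸ I) N), v ≠ 0 ∧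
        ∀ r ∈ maximalIdeal S, Ideal.Quotient.mk I r • v = 0) ∨
      Module.supportDim (S ⧸ I) (N ⧸ (Ideal.ofList xs • ⊤ : Submodule (S ⧸ I) N)) ≤ 1) :
    ∃ rs : List S, IsRegular S rs ∧ Ideal.ofList rs = I :=
  Pool.Agent.CN.ext_theorem S I hI hpd xs N hN hHom hxs hExt h

end Pool.Agent.Results.MP_c5773f_ag.DepthZeroOrDimOne
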