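import Pool.Agent.FNA.Fin

/-!
MP_c5773f_ag, Q1 with `N = R` (Vasconcelos' conjecture): `S` Noetherian local, `I` proper,
`pd_S S/I < ∞`, `R = S/I`, the normal module `Hom(I/I², R)` free, or of finite projective
dimension with `depth R ≤ 2`.  Then `I` is generated by a regular sequence, if
(a) `S` is a localisation of a polynomial ring over a field at a prime ideal (so `R` is any local
ring essentially of finite type over a field), or
(b) `S` is regular of prime characteristic, or
(c) `I` is perfect (for `S` regular: `R` is Cohen-Macaulay), or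
(d) no nonzero element of `I/mI` is killed by all the derivations `E ∈ m Der(S)` with `E(I) ⊆ I`
(for example `I` quasi-homogeneous in characteristic zero).

(b), (c), (d) are due to helper19 (`Pool.Agent.Helper19`).  In (a) a finite certificate is reduced
modulo `p` along a valuation ring of the field (`Pool.Agent.FNA`, helper57 and helper19).
-/

universe u

open CategoryTheory IsLocalRing RingTheory.Sequence

namespace Pool.Agent.Results.MP_c5773f_ag.FreeNormal

theorem result (S : Type u) [CommRing S] [IsLocalRing S] [IsNoetherianRing S]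
    (I : Ideal S) (hI : I ≠ ⊤) (hfin : projectiveDimension (ModuleCat.of S (S ⧸ I)) < ⊤)
    (hN : Module.Free (S ⧸ I) (I.Cotangent →ₗ[S ⧸ I] (S ⧸ I)) ∨
      ((∀ rs : List (S ⧸ I), IsRegular (S ⧸ I) rs → rs.length ≤ 2) ∧
        projectiveDimension (ModuleCat.of (S ⧸ I) (I.Cotangent →ₗ[S ⧸ I] (S ⧸ I))) < ⊤))
    (h : (∃ (k : Type u) (_ : Field k) (n : ℕ) (q : Ideal (MvPolynomial (Fin n) k))
        (_ : q.IsPrime), Nonempty (Localization.AtPrime q ≃+* S)) ∨
      (IsRegularLocalRing S ∧ ∃ p : ℕ, p.Prime ∧ CharP S p) ∨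
      (∃ gs : List S, IsRegular S gs ∧ (∀ g ∈ gs, g ∈ I) ∧
        projectiveDimension (ModuleCat.of S (S ⧸ I)) ≤ gs.length) ∨
      ∀ x ∈ I, (∀ E ∈ maximalIdeal S • (⊤ : Submodule S (Derivation ℤ S S)),
        (∀ y ∈ I, E y ∈ I) → E x ∈ maximalIdeal S * I) → x ∈ maximalIdeal S * I) :
    ∃ rs : List S, IsRegular S rs ∧ Ideal.ofList rs = I := by
  rcases h with h | h | h
  · exact Pool.Agent.FNA.free_normal_all S I hI hfin hN (Or.inr (Or.inr h))
  · exact Pool.Agent.FNA.free_normal_all S I hI hfin hN (Or.inr (Or.inl h))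
  · exact Pool.Agent.FNA.free_normal_all S I hI hfin hN (Or.inl h)

end Pool.Agent.Results.MP_c5773f_ag.FreeNormal
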