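import Pool.Agent.VG3.AsmV

/-!
MP_c5773f_ag, Q1 for every finitely generated module `N` over every quasi-homogeneous ring of
characteristic zero.

`k` is a field of characteristic zero, `w` positive weights, `I ≤ m = (x₁, …, xₙ)` an ideal of
`k[x₁, …, xₙ]` that contains the weighted homogeneous components of its elements, `S` the localization
at `m`, `IS` the extended ideal, `R = S/IS`, `N` a nonzero finitely generated `R`-module (not assumed
graded).  If `pd_R N < ∞` and `pd_R Hom_R(IS/(IS)², N) < ∞`, then `IS` is generated by an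
`S`-regular sequence.
-/

universe u

open MvPolynomial CategoryTheory RingTheory.Sequence

namespace Pool.Agent.Results.MP_c5773f_ag.QuasiHomogeneous

theorem result (k : Type u) [Field k] [CharZero k] (n : ℕ) (w : Fin n → ℕ) (hw : ∀ i, 0 < w i)
    (I m : Ideal (MvPolynomial (Fin n) k)) [m.IsPrime] (hm : m = Ideal.span (Set.range X))
    (hIm : I ≤ m) (hI : ∀ f ∈ I, ∀ d, weightedHomogeneousComponent w d f ∈ I)
    (S : Type u) [CommRing S] [Algebra (MvPolynomial (Fin n) k) S] [IsLocalization.AtPrime S m]
    (IS : Ideal S) (hIS : IS = I.map (algebraMap (MvPolynomial (Fin n) k) S))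
    (N : Type u) [AddCommGroup N] [Module (S ⧸ IS) N] [Module.Finite (S ⧸ IS) N] [Nontrivial N]
    (hN : projectiveDimension (ModuleCat.of (S ⧸ IS) N) < ⊤)
    (hP : projectiveDimension (ModuleCat.of (S ⧸ IS) (IS.Cotangent →ₗ[S ⧸ IS] N)) < ⊤) :
    ∃ rs : List S, IsRegular S rs ∧ Ideal.ofList rs = IS := by
  subst hIS
  exact VG.vg3_main w hw I m hm hIm hI S N hN hP

end Pool.Agent.Results.MP_c5773f_ag.QuasiHomogeneous
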